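import Pool.Agent.V7H44.MF.Defs

/-!
# Extensions of exponent `p` unramified outside a set of primes: definitions
-/

set_option autoImplicit false

namespace Pool.Agent.V7H53.TR

open Module IntermediateField Pool.Agent.Q60.MU Pool.Agent.V7H44.MF

/-- The valuation ring `A` of the field of algebraic numbers lies above one of the primes in `S`. -/
def Above (S : Set ℕ) (A : ValuationSubring Qb) : Prop := ∃ ℓ ∈ S, (ℓ : Qb) ∈ A.nonunits

/-- `M` is a finite Galois extension of `E` with abelian Galois group of exponent `p`, unramified at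
all finite primes which are not above `S`. -/
structure IsElementary (p : ℕ) (S : Set ℕ) (E M : IntermediateField ℚ Qb) : Prop where
  le : E ≤ M
  finite : FiniteDimensional ℚ M
  normal : ∀ σ ∈ E.fixingSubgroup, ∀ x ∈ M, σ x ∈ M
  abelian : ∀ σ ∈ E.fixingSubgroup, ∀ τ ∈ E.fixingSubgroup, ∀ x ∈ M, σ (τ x) = τ (σ x)
  exponent : ∀ σ ∈ E.fixingSubgroup, ∀ x ∈ M, (σ ^ p) x = x
  unramified : ∀ A, ¬ Above S A → ∀ σ ∈ inertia A, σ ∈ E.fixingSubgroup → ∀ x ∈ M, σ x = x

/-- The `p`-rank of the Galois group of the maximal abelian extension of `E` unramified outside `S`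
is at most `r`. -/
def PRankLe (p : ℕ) (S : Set ℕ) (E : IntermediateField ℚ Qb) (r : ℕ) : Prop :=
  ∀ M, IsElementary p S E M → finrank ℚ M ≤ p ^ r * finrank ℚ E

/-- The `p`-ranks of the fields `F R₀, F R₁, …` are bounded. -/
def Bdd (p : ℕ) (S : Set ℕ) (R : ℕ → IntermediateField ℚ Qb) (F : IntermediateField ℚ Qb) : Prop :=
  ∃ r, ∀ m, PRankLe p S (F ⊔ R m) r

/-- The field `F` is totally real. -/
def IsReal (F : IntermediateField ℚ Qb) : Prop := ∀ (φ : F →+* ℂ) (x : F), (φ x).im = 0

section

variable (p : ℕ) [Fact p.Prime] (S : Set ℕ) (R : ℕ → IntermediateField ℚ Qb)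

/-- `E` is a tight subfield of `N` of degree prime to `p`. -/
def TightBelow (N E : IntermediateField ℚ Qb) : Prop := E ≤ N ∧ IsTight p E ∧ ¬ p ∣ finrank ℚ E

/-- At the level `m` the `p`-ranks of the tight subfields of `N` of degree prime to `p` are at most
`r`. -/
def TightRanksLe (N : IntermediateField ℚ Qb) (m r : ℕ) : Prop :=
  ∀ E, TightBelow p N E → PRankLe p S (E ⊔ R m) r

/-- `μ = 0` for all tight subfields of `N` of degree prime to `p`. -/
def TightZeroBelow (N : IntermediateField ℚ Qb) : Prop := ∀ E, TightBelow p N E → Bdd p S R E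

/-- `μ = 0` for all totally real fields. -/
def AllReal : Prop :=
  ∀ F : IntermediateField ℚ Qb, FiniteDimensional ℚ F → IsReal F → Bdd p S R F

/-- `μ = 0` for all tight totally real fields of degree prime to `p`. -/
def TightReal : Prop :=
  ∀ F : IntermediateField ℚ Qb, IsReal F → IsTight p F → ¬ p ∣ finrank ℚ F → Bdd p S R F

/-- `μ = 0` for all totally real abelian fields. -/
def AbelianReal : Prop :=
  ∀ F : IntermediateField ℚ Qb, FiniteDimensional ℚ F → IsReal F → IsAbelianField F → Bdd p S R F

/-- `μ = 0` for all tight totally real fields of degree prime to `p` which are not abelian. -/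
def TightRealNonabelian : Prop :=
  ∀ F : IntermediateField ℚ Qb, IsReal F → IsTight p F → ¬ p ∣ finrank ℚ F →
    ¬ IsAbelianField F → Bdd p S R F

end

end Pool.Agent.V7H53.TR
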