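import Pool.Agent.Q60.MU.Reduction

/-!
# The reduction to stabilizers of vectors in simple modules, at one level
-/

set_option autoImplicit false

namespace Pool.Agent.V7H53.TR

open Subgroup Module Pool.Agent.Q60.MU

variable {𝔾 : Type} [Group 𝔾]

/-- **The reduction theorem, level by level, with uniform constants.** -/
theorem reduction_level [TopologicalSpace 𝔾] [ContinuousMul 𝔾] {p : ℕ} [Fact p.Prime] {Ω : Type}
    [MulAction 𝔾 Ω] {I : Ω → Subgroup 𝔾}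
    (hI : ∀ (g : 𝔾) (w : Ω), ∀ x ∈ I w, g * x * g⁻¹ ∈ I (g • w))
    {Dm : ℕ → Subgroup 𝔾} (hDn : ∀ m, (Dm m).Normal)
    (hDf : ∀ m, (Dm m).index ≠ 0) {K : Subgroup 𝔾} (hKn : K.Normal) (hKf : K.index ≠ 0)
    (hram : ∃ t, ∀ m, ∃ T : Finset Ω, T.card ≤ t ∧
        ∀ w, I w ⊓ Dm m ≤ K ∨ ∃ u ∈ T, ∃ d ∈ Dm m, w = d • u) :
    ∃ c a : ℕ, 0 < c ∧ ∀ m C, (∀ (S : Type) [AddCommGroup S] [Module (ZMod p) S]
      [Module.Finite (ZMod p) S]
      (τ : Representation (ZMod p) 𝔾 S), (∀ g ∈ K, ∀ x, τ g x = x) → IsSimple τ →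
      ∃ L, (K ≤ L ∧ RankLe p I (L ⊓ Dm m) C) ∧ ∃ v : S, v ≠ 0 ∧ L ≤ stab τ v) →
      RankLe p I (K ⊓ Dm m) ((c * (C + 1)) ^ a) := by
  classical
  obtain ⟨t, ht⟩ := hram
  have hfin0 := finite_ge hKn hKf
  refine ⟨cst K.index (K.index * t) + 1, K.index * hfin0.toFinset.card, Nat.succ_pos _,
    fun m C hvec => ?_⟩
  -- the finite set of subgroups with bounded ranks
  have hfin : {L : Subgroup 𝔾 | K ≤ L ∧ RankLe p I (L ⊓ Dm m) C}.Finite :=
    hfin0.subset fun L hL => hL.1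
  set 𝓛 := hfin.toFinset with h𝓛
  have hmem : ∀ L, L ∈ 𝓛 ↔ K ≤ L ∧ RankLe p I (L ⊓ Dm m) C := fun L => by
    rw [h𝓛, Set.Finite.mem_toFinset]
    rfl
  have hcard : 𝓛.card ≤ hfin0.toFinset.card := by
    apply Finset.card_le_card
    intro L hL
    rw [Set.Finite.mem_toFinset]
    exact ((hmem L).1 hL).1
  obtain ⟨T, hTt, hT⟩ := ht m
  have h1 : (K ⊓ Dm m).relIndex (Dm m) = K.relIndex (Dm m) := inf_relIndex_right K _
  have h2 : K.relIndex (Dm m) ∣ K.index := relIndex_dvd_index_of_normal K _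
  have h3 : (K ⊓ Dm m).relIndex (Dm m) ≠ 0 := by
    rw [h1]
    intro h
    rw [h] at h2
    exact hKf (Nat.eq_zero_of_zero_dvd h2)
  have h4 : (K ⊓ Dm m).relIndex (Dm m) ≤ K.index := by
    rw [h1]
    exact Nat.le_of_dvd (Nat.pos_of_ne_zero hKf) h2
  have hconj : ∀ (L : Subgroup 𝔾) (g : 𝔾), (L ⊓ Dm m).map (MulAut.conj g).toMonoidHom =
      L.map (MulAut.conj g).toMonoidHom ⊓ Dm m := by
    intro L g
    ext x
    constructor
    · rintro ⟨y, ⟨hy, hyD⟩, rfl⟩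
      exact ⟨⟨y, hy, rfl⟩, (hDn m).conj_mem y hyD g⟩
    · rintro ⟨⟨y, hy, rfl⟩, hyD⟩
      refine ⟨y, ⟨hy, ?_⟩, rfl⟩
      have h3 := (hDn m).conj_mem _ hyD g⁻¹
      have h4 : g⁻¹ * ((MulAut.conj g).toMonoidHom y) * g⁻¹⁻¹ = y := by
        show g⁻¹ * (g * y * g⁻¹) * g⁻¹⁻¹ = y
        group
      rwa [h4] at h3
  have hdet : Detects (ZMod p) ((K ⊓ Dm m).subgroupOf (Dm m))
      (𝓛.image fun L => L ⊓ Dm m) (fun L => L.subgroupOf (Dm m)) := by
    intro S _ _ _ σ htriv hsim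
    have hnt : Nontrivial S := hsim.1
    obtain ⟨L, g, hL, hqc⟩ := exists_vector σ (hDf m) hKn
      (fun g hg x => htriv g (by
        rw [inf_subgroupOf_right]
        exact hg) x) (fun L => K ≤ L ∧ RankLe p I (L ⊓ Dm m) C)
        (fun Q _ _ _ τ hτ hs => hvec Q τ hτ hs)
    have h5 : L.map (MulAut.conj g).toMonoidHom ∈ 𝓛 := by
      rw [hmem]
      refine ⟨fun x hx => ?_, ?_⟩
      · refine ⟨g⁻¹ * x * g⁻¹⁻¹, hL.1 (hKn.conj_mem x hx g⁻¹), ?_⟩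
        show g * (g⁻¹ * x * g⁻¹⁻¹) * g⁻¹ = x
        group
      · rw [← hconj]
        exact hL.2.conj hI g
    refine ⟨L.map (MulAut.conj g).toMonoidHom ⊓ Dm m, Finset.mem_image.2 ⟨_, h5, rfl⟩, ?_⟩
    show coinv σ ((L.map (MulAut.conj g).toMonoidHom ⊓ Dm m).subgroupOf (Dm m)) ≠ ⊤
    rw [inf_subgroupOf_right]
    exact hqc
  have h5 := main_ineq (p := p) hI (K := K ⊓ Dm m) (D := Dm m) inf_le_right
    (fun d hd x hx => ⟨hKn.conj_mem x hx.1 d, (Dm m).mul_mem ((Dm m).mul_mem hd hx.2)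
      ((Dm m).inv_mem hd)⟩) h3 h4 (𝓛.image fun L => L ⊓ Dm m) (by
      intro L hL
      obtain ⟨M, hM, rfl⟩ := Finset.mem_image.1 hL
      exact ⟨inf_le_inf_right _ ((hmem M).1 hM).1, inf_le_right⟩) hdet T hTt
    (fun w => (hT w).imp (fun h => le_inf h inf_le_right) id) (C := C) (by
      intro L hL
      obtain ⟨M, hM, rfl⟩ := Finset.mem_image.1 hL
      exact ((hmem M).1 hM).2)
  refine h5.mono ?_
  have h6 : cst K.index (K.index * t) * C ≤ (cst K.index (K.index * t) + 1) * (C + 1) :=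
    Nat.mul_le_mul (Nat.le_succ _) (Nat.le_succ _)
  refine (Nat.pow_le_pow_left h6 _).trans (Nat.pow_le_pow_right (by positivity) ?_)
  exact Nat.mul_le_mul_left _ (Finset.card_image_le.trans hcard)

end Pool.Agent.V7H53.TR
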