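import Pool.Agent.V7H44.MF.Tight
import Pool.Agent.V7H53.TR.Defs
import Pool.Agent.V7H53.TR.Level

/-!
# Extensions unramified outside a set of primes: translation to number fields
-/

set_option autoImplicit false

namespace Pool.Agent.V7H53.TR

open Subgroup Module IntermediateField Pool.Agent.Q60.MU Pool.Agent.V7H44.MF
open scoped Pointwise commutatorElement

open Classical in
/-- The inertia group of `A`, replaced by the trivial group if `A` is above `S`. -/
noncomputable def inertiaOff (S : Set ℕ) (A : ValuationSubring Qb) : Subgroup Gal(Qb/ℚ) :=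
  if Above S A then ⊥ else inertia A

theorem inertiaOff_le (S : Set ℕ) (A : ValuationSubring Qb) : inertiaOff S A ≤ inertia A := by
  unfold inertiaOff
  split_ifs
  · exact bot_le
  · exact le_rfl

theorem mem_inertiaOff {S : Set ℕ} {A : ValuationSubring Qb} {σ : Gal(Qb/ℚ)} (hσ : σ ≠ 1) :
    σ ∈ inertiaOff S A ↔ ¬ Above S A ∧ σ ∈ inertia A := by
  unfold inertiaOff
  split_ifs with h
  · rw [Subgroup.mem_bot]
    exact ⟨fun h1 => absurd h1 hσ, fun h1 => absurd h h1.1⟩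
  · exact ⟨fun h1 => ⟨h, h1⟩, fun h1 => h1.2⟩

theorem nonunits_smul (g : Gal(Qb/ℚ)) (A : ValuationSubring Qb) (ℓ : ℕ)
    (h : (ℓ : Qb) ∈ (g • A).nonunits) : (ℓ : Qb) ∈ A.nonunits := by
  rw [ValuationSubring.mem_nonunits_iff_or] at h ⊢
  rcases h with h | h
  · exact Or.inl h
  · right
    intro h7
    apply h
    have h8 : ((ℓ : Qb))⁻¹ = g • ((ℓ : Qb))⁻¹ := by
      show ((ℓ : Qb))⁻¹ = g ((ℓ : Qb))⁻¹
      rw [map_inv₀, map_natCast]
    rw [h8]
    exact ValuationSubring.smul_mem_pointwise_smul_iff.2 h7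

theorem above_smul (S : Set ℕ) (g : Gal(Qb/ℚ)) (A : ValuationSubring Qb) :
    Above S (g • A) ↔ Above S A := by
  constructor
  · rintro ⟨ℓ, hℓ, h⟩
    exact ⟨ℓ, hℓ, nonunits_smul g A ℓ h⟩
  · rintro ⟨ℓ, hℓ, h⟩
    refine ⟨ℓ, hℓ, nonunits_smul g⁻¹ (g • A) ℓ ?_⟩
    rwa [inv_smul_smul]

theorem inertiaOff_conj (S : Set ℕ) (g : Gal(Qb/ℚ)) (A : ValuationSubring Qb) :
    ∀ σ ∈ inertiaOff S A, g * σ * g⁻¹ ∈ inertiaOff S (g • A) := by
  intro σ hσ
  by_cases h : Above S A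
  · have h1 : σ = 1 := by
      unfold inertiaOff at hσ
      rwa [if_pos h, Subgroup.mem_bot] at hσ
    rw [h1, mul_one, mul_inv_cancel]
    exact Subgroup.one_mem _
  · unfold inertiaOff at hσ ⊢
    rw [if_neg h] at hσ
    rw [if_neg (fun h1 => h ((above_smul S g A).1 h1))]
    exact inertia_conj g A σ hσ

theorem rankLe_iff {p : ℕ} (S : Set ℕ) (E : IntermediateField ℚ Qb) [FiniteDimensional ℚ E]
    (r : ℕ) : RankLe p (inertiaOff S) E.fixingSubgroup (p ^ r) ↔ PRankLe p S E r := by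
  have hK0 := index_ne_zero' E
  constructor
  · intro h M hEl
    obtain ⟨hEM, hM, h1, h2, h3, h4⟩ := hEl
    have hWK : M.fixingSubgroup ≤ E.fixingSubgroup := fixingSubgroup_le hEM
    have hmul := relIndex_mul_index hWK
    have hW0 := index_ne_zero' M
    have h5 := h M.fixingSubgroup hWK M.fixingSubgroup_isOpen (by
      intro h0
      rw [h0, zero_mul] at hmul
      exact hW0 hmul.symm) (by
      rintro x ((⟨a, ha, rfl⟩ | ⟨a, ha, b, hb, rfl⟩) | ⟨hx, w, hw⟩)
      · exact (mem_fixingSubgroup_iff _ _).2 fun x hx => h3 a ha x hx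
      · refine (mem_fixingSubgroup_iff _ _).2 fun x hx => ?_
        have hb' : b⁻¹ x ∈ M := h1 _ (inv_mem hb) x hx
        have ha' : a⁻¹ (b⁻¹ x) ∈ M := h1 _ (inv_mem ha) _ hb'
        have h6 := h2 a ha b hb _ ha'
        show ⁅a, b⁆ x = x
        have h7 : ⁅a, b⁆ x = a (b (a⁻¹ (b⁻¹ x))) := rfl
        have h8 : a (a⁻¹ (b⁻¹ x)) = b⁻¹ x := by
          rw [← AlgEquiv.mul_apply, mul_inv_cancel, AlgEquiv.one_apply]
        have h9 : b (b⁻¹ x) = x := by
          rw [← AlgEquiv.mul_apply, mul_inv_cancel, AlgEquiv.one_apply]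
        rw [h7, h6, h8, h9]
      · by_cases hx1 : x = 1
        · rw [hx1]
          exact Subgroup.one_mem _
        · obtain ⟨h10, h11⟩ := (mem_inertiaOff hx1).1 hw
          exact (mem_fixingSubgroup_iff _ _).2 fun y hy => h4 w h10 x h11 hx y hy)
    rw [finrank_eq_fixingSubgroup_index, finrank_eq_fixingSubgroup_index, ← hmul]
    exact Nat.mul_le_mul_right _ h5
  · intro h W hWK hWo hWf hg
    have hmul := relIndex_mul_index hWK
    have hW0 : W.index ≠ 0 := by
      rw [← hmul]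
      exact mul_ne_zero hWf hK0
    have hfix := fix_fixed hWo
    have hEM : E ≤ fixedField W := (le_iff_le _ _).2 hWK
    have hfd := finite_fixed hWo hW0
    have hmem : ∀ x, x ∈ fixedField W ↔ ∀ w ∈ W, w x = x := fun x => mem_fixedField_iff _ _
    have h5 := h (fixedField W) ⟨hEM, hfd, (by
      intro σ hσ x hx
      rw [hmem] at hx ⊢
      intro w hw
      have h1 : ⁅σ⁻¹, w⁆ ∈ W := hg (Or.inl (Or.inr ⟨σ⁻¹, inv_mem hσ, w, hWK hw, rfl⟩))
      have h2 : w (σ x) = σ ((⁅σ⁻¹, w⁆ * w) x) := by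
        rw [← AlgEquiv.mul_apply, ← AlgEquiv.mul_apply]
        congr 1
        rw [commutatorElement_def]
        group
      rw [h2, hx _ (W.mul_mem h1 hw)]), (by
      intro σ hσ τ hτ x hx
      rw [hmem] at hx
      have h1 : ⁅σ⁻¹, τ⁻¹⁆ ∈ W := hg (Or.inl (Or.inr ⟨σ⁻¹, inv_mem hσ, τ⁻¹, inv_mem hτ, rfl⟩))
      have h2 : σ (τ x) = τ (σ (⁅σ⁻¹, τ⁻¹⁆ x)) := by
        rw [← AlgEquiv.mul_apply, ← AlgEquiv.mul_apply, ← AlgEquiv.mul_apply]
        congr 1
        rw [commutatorElement_def]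
        group
      rw [h2, hx _ h1]), (by
      intro σ hσ x hx
      rw [hmem] at hx
      exact hx _ (hg (Or.inl (Or.inl ⟨σ, hσ, rfl⟩)))), (by
      intro A hA σ hσA hσ x hx
      rw [hmem] at hx
      by_cases hσ1 : σ = 1
      · rw [hσ1]
        rfl
      · exact hx _ (hg (Or.inr ⟨hσ, A, (mem_inertiaOff hσ1).2 ⟨hA, hσA⟩⟩)))⟩
    rw [finrank_eq_fixingSubgroup_index, finrank_eq_fixingSubgroup_index, hfix, ← hmul] at h5
    exact Nat.le_of_mul_le_mul_right h5 (Nat.pos_of_ne_zero hK0)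

theorem rankLe_level {p : ℕ} (S : Set ℕ) {R : ℕ → IntermediateField ℚ Qb}
    (hR : ∀ m, FiniteDimensional ℚ (R m)) (F : IntermediateField ℚ Qb) [FiniteDimensional ℚ F]
    (m r : ℕ) : RankLe p (inertiaOff S) (F.fixingSubgroup ⊓ (R m).fixingSubgroup) (p ^ r) ↔
      PRankLe p S (F ⊔ R m) r := by
  have := hR m
  rw [← rankLe_iff, fixingSubgroup_sup]

theorem exists_pow {p : ℕ} (hp : p.Prime) (c : ℕ) : ∃ b, c ≤ p ^ b :=
  ⟨c, (Nat.lt_pow_self hp.one_lt).le⟩

/-- **Level by level: detecting subfields.** -/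
theorem level_detect (p : ℕ) [hpf : Fact p.Prime] (S : Set ℕ) (R : ℕ → IntermediateField ℚ Qb)
    (hR : ∀ m, FiniteDimensional ℚ (R m)) (hRn : ∀ m, IsGalois ℚ (R m)) (hd : FinDec R)
    (N : IntermediateField ℚ Qb) (hN : FiniteDimensional ℚ N) (hNn : IsGalois ℚ N)
    (𝓔 : Set (IntermediateField ℚ Qb)) (h𝓔 : ∀ E ∈ 𝓔, E ≤ N)
    (hdet : ∀ (S : Type) [AddCommGroup S] [Module (ZMod p) S] [Module.Finite (ZMod p) S]
      (τ : Representation (ZMod p) Gal(Qb/ℚ) S), (∀ g ∈ N.fixingSubgroup, ∀ x, τ g x = x) →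
      IsSimple τ → ∃ E ∈ 𝓔, ∃ v : S, v ≠ 0 ∧ ∀ g ∈ E.fixingSubgroup, τ g v = v) :
    ∃ a b : ℕ, ∀ F ≤ N, ∀ m r,
      ((∀ E ∈ 𝓔, PRankLe p S (E ⊔ R m) r) → PRankLe p S (F ⊔ R m) (a * r + b)) ∧
      (PRankLe p S (N ⊔ R m) r → PRankLe p S (F ⊔ R m) (r + b)) := by
  have hp : p.Prime := Fact.out
  have hfd : ∀ E : IntermediateField ℚ Qb, E ≤ N → FiniteDimensional ℚ E := fun E hE =>
    Submodule.finiteDimensional_of_le (S₁ := Subalgebra.toSubmodule E.toSubalgebra)
      (S₂ := Subalgebra.toSubmodule N.toSubalgebra) hE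
  have hKn : N.fixingSubgroup.Normal := (InfiniteGalois.normal_iff_isGalois N).2 hNn
  have hKo := N.fixingSubgroup_isOpen
  have hKf := index_ne_zero' N
  have hDo : ∀ m, IsOpen ((R m).fixingSubgroup : Set Gal(Qb/ℚ)) := fun m => by
    have := hR m
    exact (R m).fixingSubgroup_isOpen
  obtain ⟨c, a, hc0, hca⟩ := reduction_level (p := p) (I := inertiaOff S) (inertiaOff_conj S)
    (fun m => (InfiniteGalois.normal_iff_isGalois (R m)).2 (hRn m))
    (fun m => by
      have := hR m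
      exact index_ne_zero' (R m)) hKn hKf (by
      obtain ⟨t, ht⟩ := ramified_of_finDec hd hKo hKf
      refine ⟨t, fun m => ?_⟩
      obtain ⟨T, hT1, hT2⟩ := ht m
      exact ⟨T, hT1, fun w => (hT2 w).imp
        (fun h => (inf_le_inf_right _ (inertiaOff_le S w)).trans h) id⟩)
  obtain ⟨b₀, hb₀⟩ := exists_pow hp (c * 2)
  obtain ⟨b₁, hb₁⟩ := exists_pow hp N.fixingSubgroup.index
  -- going down
  have down : ∀ F ≤ N, ∀ m r, PRankLe p S (N ⊔ R m) r → PRankLe p S (F ⊔ R m) (r + b₁) := by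
    intro F hF m r h
    have hFd := hfd F hF
    rw [← rankLe_level S hR] at h ⊢
    have h2 : N.fixingSubgroup.relIndex (F.fixingSubgroup ⊓ (R m).fixingSubgroup) ∣
      N.fixingSubgroup.index := relIndex_dvd_index_of_normal _ _
    have h1 : (N.fixingSubgroup ⊓ (R m).fixingSubgroup).relIndex
        (F.fixingSubgroup ⊓ (R m).fixingSubgroup) =
        N.fixingSubgroup.relIndex (F.fixingSubgroup ⊓ (R m).fixingSubgroup) := by
      rw [← inf_relIndex_right, ← inf_relIndex_right N.fixingSubgroup]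
      congr 1
      ext x
      simp only [Subgroup.mem_inf]
      tauto
    have h3 : (N.fixingSubgroup ⊓ (R m).fixingSubgroup).relIndex
        (F.fixingSubgroup ⊓ (R m).fixingSubgroup) ≠ 0 := by
      rw [h1]
      intro h
      rw [h] at h2
      exact hKf (Nat.eq_zero_of_zero_dvd h2)
    refine (RankLe.of_le (inf_le_inf_right _ (fixingSubgroup_le hF)) (by
      rw [Subgroup.coe_inf]
      exact hKo.inter (hDo m)) h3 h).mono ?_
    rw [h1, pow_add]
    exact Nat.mul_le_mul_left _ ((Nat.le_of_dvd (Nat.pos_of_ne_zero hKf) h2).trans hb₁)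
  refine ⟨a, a * b₀ + b₁, fun F hF m r => ⟨fun h => ?_, fun h => ?_⟩⟩
  · have h1 : PRankLe p S (N ⊔ R m) (a * r + a * b₀) := by
      rw [← rankLe_level S hR]
      refine (hca m (p ^ r) ?_).mono ?_
      · intro Q _ _ _ τ hτ hs
        obtain ⟨E, hE, v, hv, hfix⟩ := hdet Q τ hτ hs
        have hEd := hfd E (h𝓔 E hE)
        exact ⟨E.fixingSubgroup, ⟨fixingSubgroup_le (h𝓔 E hE),
          (rankLe_level S hR E m r).2 (h E hE)⟩, v, hv, hfix⟩
      · have h2 : c * (p ^ r + 1) ≤ p ^ (r + b₀) := by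
          have h3 : 1 ≤ p ^ r := Nat.one_le_pow _ _ hp.pos
          calc c * (p ^ r + 1) ≤ c * (p ^ r * 2) := Nat.mul_le_mul_left _ (by omega)
            _ = p ^ r * (c * 2) := by ring
            _ ≤ p ^ r * p ^ b₀ := Nat.mul_le_mul_left _ hb₀
            _ = p ^ (r + b₀) := (pow_add _ _ _).symm
        calc (c * (p ^ r + 1)) ^ a ≤ (p ^ (r + b₀)) ^ a := Nat.pow_le_pow_left h2 a
          _ = p ^ (a * r + a * b₀) := by
            rw [← pow_mul]
            congr 1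
            ring
    have h2 := down F hF m _ h1
    rwa [add_assoc] at h2
  · have h1 := down F hF m r h
    intro M hM
    refine (h1 M hM).trans (Nat.mul_le_mul_right _ (Nat.pow_le_pow_right hp.pos ?_))
    omega

end Pool.Agent.V7H53.TR
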