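import Pool.Agent.V7H53.TR.Fields

/-!
# Tight subfields and totally real fields
-/

set_option autoImplicit false

namespace Pool.Agent.V7H53.TR

open Subgroup Module IntermediateField Pool.Agent.Q60.MU Pool.Agent.V7H44.MF
open scoped Pointwise

/-- **Level by level: tight subfields.** -/
theorem tight_level {p : ℕ} [Fact p.Prime] (hp2 : p ≠ 2) (S : Set ℕ)
    {R : ℕ → IntermediateField ℚ Qb}
    (hR : IsCyclotomicTower p R) (N : IntermediateField ℚ Qb)
    (hN : FiniteDimensional ℚ N) (hNn : IsGalois ℚ N) :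
    ∃ a b : ℕ, ∀ F ≤ N, ∀ m r,
      (TightRanksLe p S R N m r → PRankLe p S (F ⊔ R m) (a * r + b)) ∧
      (PRankLe p S (N ⊔ R m) r → PRankLe p S (F ⊔ R m) (r + b)) := by
  have hp : p.Prime := Fact.out
  have hRf := tower_finite hR
  obtain ⟨a, b, hab⟩ := level_detect p S R hRf (tower_galois hR)
    (finDec hp hp2 fun m => (hR m).1) N hN hNn
    {E | TightBelow p N E} (fun E hE => hE.1) (by
    intro S _ _ _ τ hτ hs
    have hnt : Nontrivial S := hs.1
    have hKn : N.fixingSubgroup.Normal := (InfiniteGalois.normal_iff_isGalois N).2 hNn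
    obtain ⟨v, hv, hpv, hmax⟩ := exists_tight_vec hKn (index_ne_zero' N) τ hτ
    have hopen : ∀ w, IsOpen (stab τ w : Set Gal(Qb/ℚ)) := fun w =>
      Subgroup.isOpen_mono (fun g hg => hτ g hg w) N.fixingSubgroup_isOpen
    have hsf : ∀ w, (fixedField (stab τ w)).fixingSubgroup = stab τ w := fun w => fix_fixed (hopen w)
    refine ⟨fixedField (stab τ v), ⟨fixed_le τ N hτ v, ⟨S, inferInstance, inferInstance,
      inferInstance, τ, hs, ⟨N, hN, hτ⟩, ⟨v, hv, ?_⟩, ?_⟩, ?_⟩, v, hv, ?_⟩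
    · rw [hsf]
      exact fun g hg => hg
    · intro w hw hfix g hg
      rw [hsf] at hfix ⊢
      rw [← hmax w hw hfix]
      exact hg
    · rw [finrank_eq_fixingSubgroup_index, hsf]
      exact hpv
    · rw [hsf]
      exact fun g hg => hg)
  exact ⟨a, b, fun F hF m r => ⟨fun h => (hab F hF m r).1 fun E hE => h E hE, (hab F hF m r).2⟩⟩

theorem PRankLe.mono {p : ℕ} (hp : p.Prime) {S : Set ℕ} {E : IntermediateField ℚ Qb} {r r' : ℕ}
    (h : PRankLe p S E r) (hr : r ≤ r') : PRankLe p S E r' := fun M hM =>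
  (h M hM).trans (Nat.mul_le_mul_right _ (Nat.pow_le_pow_right hp.pos hr))

/-- There are finitely many subfields. -/
theorem finite_below (N : IntermediateField ℚ Qb) (hN : FiniteDimensional ℚ N)
    (hNn : IsGalois ℚ N) : {E : IntermediateField ℚ Qb | E ≤ N}.Finite := by
  have hKn : N.fixingSubgroup.Normal := (InfiniteGalois.normal_iff_isGalois N).2 hNn
  refine Set.Finite.of_finite_image (f := fun E : IntermediateField ℚ Qb => E.fixingSubgroup)
    ((finite_ge hKn (index_ne_zero' N)).subset ?_) ?_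
  · rintro _ ⟨E, hE, rfl⟩
    exact fixingSubgroup_le hE
  · intro E _ E' _ h
    have h1 : E.fixingSubgroup = E'.fixingSubgroup := h
    rw [← InfiniteGalois.fixedField_fixingSubgroup E, h1,
      InfiniteGalois.fixedField_fixingSubgroup E']

/-- **Tight subfields detect `μ = 0`.** -/
theorem tight_zero {p : ℕ} [Fact p.Prime] (hp2 : p ≠ 2) {S : Set ℕ}
    {R : ℕ → IntermediateField ℚ Qb}
    (hR : IsCyclotomicTower p R) (N : IntermediateField ℚ Qb)
    (hN : FiniteDimensional ℚ N) (hNn : IsGalois ℚ N) (h : TightZeroBelow p S R N)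
    (F : IntermediateField ℚ Qb) (hF : F ≤ N) : Bdd p S R F := by
  classical
  have hp : p.Prime := Fact.out
  obtain ⟨a, b, hab⟩ := tight_level hp2 S hR N hN hNn
  have hfin : {E : IntermediateField ℚ Qb | TightBelow p N E}.Finite :=
    (finite_below N hN hNn).subset fun E hE => hE.1
  choose! r hr using h
  refine ⟨a * hfin.toFinset.sup r + b, fun m => (hab F hF m _).1 fun E hE => ?_⟩
  exact (hr E hE m).mono hp (Finset.le_sup (f := r) (hfin.mem_toFinset.2 hE))

/-- `μ = 0` goes down to subfields. -/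
theorem bdd_down {p : ℕ} [Fact p.Prime] (hp2 : p ≠ 2) {S : Set ℕ}
    {R : ℕ → IntermediateField ℚ Qb}
    (hR : IsCyclotomicTower p R) (N : IntermediateField ℚ Qb)
    (hN : FiniteDimensional ℚ N) (hNn : IsGalois ℚ N) (h : Bdd p S R N)
    (F : IntermediateField ℚ Qb) (hF : F ≤ N) : Bdd p S R F := by
  obtain ⟨a, b, hab⟩ := tight_level hp2 S hR N hN hNn
  obtain ⟨r, hr⟩ := h
  exact ⟨r + b, fun m => (hab F hF m r).2 (hr m)⟩

/-- Complex conjugation on the algebraic numbers. -/
theorem exists_conj (ψ : Qb →+* ℂ) : ∃ c : Gal(Qb/ℚ), ∀ x, ψ (c x) = (starRingEnd ℂ) (ψ x) := by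
  letI : Algebra Qb ℂ := ψ.toAlgebra
  have hst : IsScalarTower ℚ Qb ℂ := IsScalarTower.of_algebraMap_eq fun x =>
    RingHom.congr_fun (RingHom.ext_rat (algebraMap ℚ ℂ) (ψ.comp (algebraMap ℚ Qb))) x
  have hnm : Normal ℚ Qb := inferInstance
  let κ : ℂ ≃ₐ[ℚ] ℂ := (Complex.conjAe.restrictScalars ℚ)
  exact ⟨κ.restrictNormal Qb, fun x => κ.restrictNormal_commutes Qb x⟩

theorem im_zero_of_isReal {F : IntermediateField ℚ Qb} (hF : IsReal F) (ψ : Qb →+* ℂ) {x : Qb}
    (hx : x ∈ F) : (ψ x).im = 0 := hF (ψ.comp (algebraMap F Qb)) ⟨x, hx⟩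

/-- Subfields of totally real fields are totally real. -/
theorem IsReal.of_le {F N : IntermediateField ℚ Qb} (hN : IsReal N) (hF : F ≤ N) : IsReal F := by
  intro φ x
  letI : Algebra F ℂ := φ.toAlgebra
  letI : Algebra F N := (inclusion hF).toRingHom.toAlgebra
  have halg : Algebra.IsAlgebraic F Qb := Algebra.IsAlgebraic.tower_top (K := ℚ) F
  let ψ : Qb →ₐ[F] ℂ := IsAlgClosed.lift
  have h1 : φ x = ψ (algebraMap F Qb x) := (ψ.commutes x).symm
  rw [h1]
  exact im_zero_of_isReal hN ψ.toRingHom (hF x.2)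

/-- The Galois closure of a totally real field is totally real. -/
theorem exists_real_closure (F : IntermediateField ℚ Qb) (hF : FiniteDimensional ℚ F)
    (hFr : IsReal F) :
    ∃ N : IntermediateField ℚ Qb, FiniteDimensional ℚ N ∧ IsGalois ℚ N ∧ F ≤ N ∧ IsReal N := by
  have hUf : F.fixingSubgroup.FiniteIndex := ⟨index_ne_zero' F⟩
  set K := F.fixingSubgroup.normalCore with hKdef
  have hKn : K.Normal := normalCore_normal _
  have hKo : IsOpen (K : Set Gal(Qb/ℚ)) :=
    isOpen_normalCore F.fixingSubgroup_isOpen (index_ne_zero' F)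
  have hKf : K.index ≠ 0 := by
    have : K.FiniteIndex := F.fixingSubgroup.finiteIndex_normalCore
    exact FiniteIndex.index_ne_zero
  have hfix := fix_fixed hKo
  refine ⟨fixedField K, finite_fixed hKo hKf,
    (InfiniteGalois.normal_iff_isGalois (fixedField K)).1 (by rw [hfix]; exact hKn),
    (le_iff_le _ _).2 (normalCore_le _), ?_⟩
  intro φ x
  letI : Algebra (fixedField K) ℂ := φ.toAlgebra
  have halg : Algebra.IsAlgebraic (fixedField K) Qb := Algebra.IsAlgebraic.tower_top (K := ℚ) _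
  let ψ : Qb →ₐ[fixedField K] ℂ := IsAlgClosed.lift
  have h1 : φ x = ψ (algebraMap (fixedField K) Qb x) := (ψ.commutes x).symm
  obtain ⟨c, hc⟩ := exists_conj ψ.toRingHom
  have hcK : c ∈ K := by
    intro g
    rw [IntermediateField.mem_fixingSubgroup_iff]
    intro y hy
    have h2 : c (g⁻¹ y) = g⁻¹ y := by
      apply ψ.toRingHom.injective
      rw [hc]
      have h3 : (ψ.toRingHom (g⁻¹ y)).im = 0 :=
        im_zero_of_isReal hFr (ψ.toRingHom.comp (g⁻¹ : Gal(Qb/ℚ)).toRingEquiv.toRingHom) hy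
      exact Complex.conj_eq_iff_im.2 h3
    show g (c (g⁻¹ y)) = y
    rw [h2, ← AlgEquiv.mul_apply, mul_inv_cancel, AlgEquiv.one_apply]
  have h4 : c (x : Qb) = x := (mem_fixedField_iff _ _).1 x.2 c hcK
  have h5 := hc (x : Qb)
  rw [h4] at h5
  rw [h1]
  exact Complex.conj_eq_iff_im.1 h5.symm

end Pool.Agent.V7H53.TR
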